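import Pool.Agent.H83.AT.Targets

/-!
Modules EI, EN, EC, E1 of board at_modules (MP_c9ef16_gt): dimension shifting, naturality,
composite functors and the identity functor for the map induced on Ext by an exact functor.
-/

open CategoryTheory CategoryTheory.Limits TopologicalSpace Topology Set Opposite
open CategoryTheory.Abelian (Ext)
open CategoryTheory.Abelian.Ext (mk₀)

namespace Pool.Agent.H98.AT

open Pool.Agent.H83.AT Pool.Agent.H96.AL

theorem ei : T_EI := by
  intro C _ _ _ _ A B n e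
  have w : Injective.ι B ≫ cokernel.π (Injective.ι B) = 0 := cokernel.condition _
  have hS : (ShortComplex.mk (Injective.ι B) (cokernel.π (Injective.ι B)) w).ShortExact :=
    { exact := ShortComplex.exact_cokernel (Injective.ι B)
      mono_f := inferInstanceAs (Mono (Injective.ι B))
      epi_g := inferInstanceAs (Epi (cokernel.π (Injective.ι B))) }
  have h0 : e.comp (mk₀ (Injective.ι B)) (add_zero (n + 1)) = 0 :=
    Abelian.Ext.eq_zero_of_injective _
  obtain ⟨e', he'⟩ := Abelian.Ext.covariant_sequence_exact₁ A hS e h0 rfl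
  exact ⟨Injective.under B, cokernel (Injective.ι B), Injective.ι B,
    cokernel.π (Injective.ι B), w, hS, inferInstance, e', he'.symm⟩

theorem en (hEI : T_EI) : T_EN := by
  intro C D _ _ _ _ _ _ _ Φ Ψ hΦ hΨ τ A B n e
  induction n generalizing B with
  | zero =>
    obtain ⟨f, rfl⟩ := (Abelian.Ext.mk₀_bijective A B).2 e
    rw [em_mk₀, em_mk₀, Abelian.Ext.mk₀_comp_mk₀, Abelian.Ext.mk₀_comp_mk₀, τ.naturality]
  | succ n ih =>
    obtain ⟨J, Q, f, g, w, hS, hJ, e', rfl⟩ := hEI C A B n e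
    have wΦ : Φ.map f ≫ Φ.map g = 0 := by rw [← Φ.map_comp, w, hΦ.zero]
    have wΨ : Ψ.map f ≫ Ψ.map g = 0 := by rw [← Ψ.map_comp, w, hΨ.zero]
    have hSΦ := hΦ.shortExact hS wΦ
    have hSΨ := hΨ.shortExact hS wΨ
    have hnat := ShortComplex.ShortExact.extClass_naturality hSΦ hSΨ
      { τ₁ := τ.app B
        τ₂ := τ.app J
        τ₃ := τ.app Q
        comm₁₂ := (τ.naturality f).symm
        comm₂₃ := (τ.naturality g).symm }
    rw [em_comp, em_comp, em_extClass hΦ hS wΦ hSΦ, em_extClass hΨ hS wΨ hSΨ,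
      Abelian.Ext.comp_assoc_of_third_deg_zero]
    refine (congrArg (fun z => (em hΦ e').comp z rfl) hnat).trans ?_
    dsimp only
    rw [← Abelian.Ext.comp_assoc_of_second_deg_zero, ih Q e',
      Abelian.Ext.comp_assoc (a₂₃ := n + 1) _ _ _ _ _ (by omega)]

theorem ec (hEI : T_EI) : T_EC := by
  intro C D E _ _ _ _ _ _ _ _ _ _ Φ Ψ hΦ hΨ h A B n e
  induction n generalizing B with
  | zero =>
    obtain ⟨f, rfl⟩ := (Abelian.Ext.mk₀_bijective A B).2 e
    rw [em_mk₀, em_mk₀, em_mk₀]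
    rfl
  | succ n ih =>
    obtain ⟨J, Q, f, g, w, hS, hJ, e', rfl⟩ := hEI C A B n e
    have wΦ : Φ.map f ≫ Φ.map g = 0 := by rw [← Φ.map_comp, w, hΦ.zero]
    have wΨ : Ψ.map (Φ.map f) ≫ Ψ.map (Φ.map g) = 0 := by
      rw [← Ψ.map_comp, wΦ, hΨ.zero]
    have hSΦ := hΦ.shortExact hS wΦ
    have hSΨ := hΨ.shortExact hSΦ wΨ
    rw [em_comp, em_comp, em_comp, em_extClass hΦ hS wΦ hSΦ, em_extClass hΨ hSΦ wΨ hSΨ,
      em_extClass h hS wΨ hSΨ, ih Q e']

theorem e1 (hEI : T_EI) : T_E1 := by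
  intro C _ _ _ _ h A B n e
  induction n generalizing B with
  | zero =>
    obtain ⟨f, rfl⟩ := (Abelian.Ext.mk₀_bijective A B).2 e
    rw [em_mk₀]
    rfl
  | succ n ih =>
    obtain ⟨J, Q, f, g, w, hS, hJ, e', rfl⟩ := hEI C A B n e
    rw [em_comp, em_extClass h hS w hS, ih Q e']

end Pool.Agent.H98.AT
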